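import Pool.Agent.KS6_56.LH.Swap

/-!
# One logically homogeneous semilattice with identity none of whose semigroup algebras is
logically homogeneous
-/

namespace Pool.Agent.Results.MP_c05c30_lc.EveryCommutativeRing

open FirstOrder FirstOrder.Language Pool.Agent.KS6_56.LH

/-- The field with two elements is logically homogeneous. -/
theorem homogeneous_two : Homogeneous rgL (ZMod 2) (rgStr (ZMod 2)) := by
  letI := rgStr (ZMod 2)
  intro n a b h
  refine ⟨FirstOrder.Language.Equiv.refl rgL (ZMod 2), fun i => ?_⟩
  change a i = b i
  have h1 := h (Term.equal (Term.var i) (Term.func (RgF.zero : rgL.Functions 0) ![]))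
  rw [Formula.realize_equal, Formula.realize_equal] at h1
  have h2 : a i = 0 ↔ b i = 0 := h1
  revert h2
  generalize a i = x
  generalize b i = y
  revert x y
  decide

/-- **Disproof, uniformly in the coefficients.** There is one commutative idempotent monoid `S`
(a semilattice with identity) which is logically homogeneous as a semigroup and such that for every
commutative ring `P ≠ 0`, in particular for every field `P` (and the field with two elements is
logically homogeneous), the semigroup algebra `PS` is not logically homogeneous, in the language of
associative `P`-algebras with the unit (`u = true`) and in the language without it (`u = false`).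
In fact there are two elements of `PS` with the same type (in both languages) which are not conjugate
under any `P`-linear multiplicative bijection of `PS`. -/
theorem result : ∃ (S : Type) (_ : CommMonoid S), (∀ x : S, x * x = x) ∧
    Homogeneous sgL S (sgStr S) ∧ Homogeneous rgL (ZMod 2) (rgStr (ZMod 2)) ∧
    ∀ (P : Type) [CommRing P] [Nontrivial P],
      (∀ u : Bool, ¬ Homogeneous (algL P u) (MonoidAlgebra P S) (algStr P u (MonoidAlgebra P S))) ∧
      ∃ a b : MonoidAlgebra P S,
        (∀ (u : Bool) (φ : (algL P u).Formula (Fin 1)),
          letI := algStr P u (MonoidAlgebra P S)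
          (φ.Realize (fun _ => a) ↔ φ.Realize (fun _ => b))) ∧
        ∀ σ : MonoidAlgebra P S ≃ₗ[P] MonoidAlgebra P S,
          (∀ x y, σ (x * y) = σ x * σ y) → σ a ≠ b := by
  refine ⟨Sg ℕ JJ, inferInstance, Sg.mul_self', Sg.homogeneous, homogeneous_two, ?_⟩
  intro P _ _
  exact ⟨fun u => not_homogeneous, f1 JJ, f2 JJ, fun u φ => same_type φ, no_auto⟩

end Pool.Agent.Results.MP_c05c30_lc.EveryCommutativeRing
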